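import Pool.Graph.R_pool_sql_team_seeded_b677cdb8.E8helper28.BT.Ker

/-!
# Selberg's sum `J` for a modulus with many prime factors
-/

set_option autoImplicit false

namespace Pool.Agent.Helper82.BTM

open Finset BoundingSieve
open Pool.Agent.Erdos456.SieveAux (JJ JJ_pos)
open Pool.Agent.Helper923.PPS
open Pool.Agent.E8helper28.BT

/-- the product of the primes which divide `n` and `q` -/
def rq (q n : ℕ) : ℕ := ∏ p ∈ n.primeFactors.filter (fun p => p ∣ q), p

theorem rq_pos (q n : ℕ) : 0 < rq q n :=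
  prod_pos fun _ hp => (Nat.prime_of_mem_primeFactors (mem_filter.1 hp).1).pos

theorem ker_mul_rq {q n : ℕ} (hn : n ≠ 0) : ker q n * rq q n ≤ n := by
  have h1 : ker q n * rq q n = ∏ p ∈ n.primeFactors, p := by
    unfold ker rq
    rw [mul_comm]
    exact prod_filter_mul_prod_filter_not _ _ _
  rw [h1]
  exact Nat.le_of_dvd (Nat.pos_of_ne_zero hn) (Nat.prod_primeFactors_dvd n)

theorem rq_le {q n : ℕ} (hn : n ≠ 0) : rq q n ≤ n := by
  have h1 := ker_mul_rq (q := q) hn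
  have h2 := ker_pos q n
  nlinarith

theorem log_rq (q n : ℕ) :
    Real.log (rq q n) = ∑ p ∈ n.primeFactors.filter (fun p => p ∣ q), Real.log p := by
  unfold rq
  push_cast
  rw [Real.log_prod]
  intro p hp
  have := (Nat.prime_of_mem_primeFactors (mem_filter.1 hp).1).pos
  positivity

theorem sum_Icc_eq (R : ℕ) : ∑ n ∈ Icc 1 R, (n : ℝ)⁻¹ = (harmonic R : ℝ) := by
  rw [harmonic_eq_sum_Icc]
  push_cast
  rfl

theorem log_succ_le (R : ℕ) : Real.log ((R : ℝ) + 1) ≤ ∑ n ∈ Icc 1 R, (n : ℝ)⁻¹ := by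
  rw [sum_Icc_eq]
  have h3 := log_add_one_le_harmonic R
  push_cast at h3
  exact h3

theorem sum_Ioc_eq {A B : ℕ} (h : A ≤ B) :
    ∑ n ∈ Ioc A B, (n : ℝ)⁻¹ = (harmonic B : ℝ) - (harmonic A : ℝ) := by
  rw [← sum_Icc_eq, ← sum_Icc_eq]
  have h1 : Icc 1 B = Icc 1 A ∪ Ioc A B := by
    ext n
    simp only [mem_Icc, mem_union, mem_Ioc]
    omega
  rw [h1, sum_union]
  · ring
  · rw [disjoint_left]
    intro n h1 h2
    rw [mem_Icc] at h1
    rw [mem_Ioc] at h2
    omega

/-- the reciprocals in `(R, R U]` -/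
theorem sum_T_le {R U : ℕ} (hR : 1 ≤ R) (hU : 1 ≤ U) :
    ∑ n ∈ Ioc R (R * U), (n : ℝ)⁻¹ ≤ 1 + Real.log U := by
  rw [sum_Ioc_eq (Nat.le_mul_of_pos_right _ hU)]
  have h1 := log_add_one_le_harmonic R
  have h2 := harmonic_le_one_add_log (R * U)
  push_cast at h1 h2
  have h3 : Real.log ((R : ℝ) * U) = Real.log R + Real.log U :=
    Real.log_mul (by positivity) (by positivity)
  have h4 : Real.log R ≤ Real.log ((R : ℝ) + 1) :=
    Real.log_le_log (by positivity) (by linarith)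
  linarith

/-- the reciprocals of the multiples of `p` in `(R, R U]` -/
theorem sum_T_mul_ge {R U p : ℕ} (hU : 1 ≤ U) (hp : 1 ≤ p) (hpR : p ≤ R) :
    (p : ℝ)⁻¹ * (Real.log U - 1) ≤ ∑ n ∈ (Ioc R (R * U)).filter (fun n => p ∣ n), (n : ℝ)⁻¹ := by
  classical
  have hR : 1 ≤ R := hp.trans hpR
  have himg : (Ioc R (R * U)).filter (fun n => p ∣ n) =
      (Ioc (R / p) (R * U / p)).image (fun m => p * m) := by
    ext n
    simp only [mem_filter, mem_Ioc, mem_image]
    constructor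
    · rintro ⟨⟨h1, h2⟩, m, rfl⟩
      refine ⟨m, ⟨?_, ?_⟩, rfl⟩
      · rw [Nat.div_lt_iff_lt_mul hp]; linarith [mul_comm p m]
      · rw [Nat.le_div_iff_mul_le hp]; linarith [mul_comm p m]
    · rintro ⟨m, ⟨h1, h2⟩, rfl⟩
      rw [Nat.div_lt_iff_lt_mul hp] at h1
      rw [Nat.le_div_iff_mul_le hp] at h2
      exact ⟨⟨by linarith [mul_comm p m], by linarith [mul_comm p m]⟩, dvd_mul_right _ _⟩
  rw [himg, sum_image (by
    intro a _ b _ hab
    exact Nat.eq_of_mul_eq_mul_left hp hab)]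
  have h0 : ∀ m : ℕ, ((p * m : ℕ) : ℝ)⁻¹ = (p : ℝ)⁻¹ * (m : ℝ)⁻¹ := by
    intro m; push_cast; rw [mul_inv]
  simp_rw [h0]
  rw [← mul_sum]
  apply mul_le_mul_of_nonneg_left _ (by positivity)
  have hle : R / p ≤ R * U / p := Nat.div_le_div_right (Nat.le_mul_of_pos_right _ hU)
  rw [sum_Ioc_eq hle]
  have h1 := log_add_one_le_harmonic (R * U / p)
  have h2 := harmonic_le_one_add_log (R / p)
  have hp0 : (0 : ℝ) < p := by exact_mod_cast hp
  have hR0 : (0 : ℝ) < R := by exact_mod_cast hR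
  have hU0 : (0 : ℝ) < U := by exact_mod_cast hU
  have hd : 1 ≤ R / p := (Nat.one_le_div_iff hp).2 hpR
  have h3 : Real.log ((R / p : ℕ) : ℝ) ≤ Real.log R - Real.log p := by
    rw [← Real.log_div hR0.ne' hp0.ne']
    apply Real.log_le_log (by exact_mod_cast hd)
    exact Nat.cast_div_le
  have h4 : Real.log R + Real.log U - Real.log p ≤ Real.log ((R * U / p + 1 : ℕ) : ℝ) := by
    rw [← Real.log_mul hR0.ne' hU0.ne', ← Real.log_div (by positivity) hp0.ne']
    apply Real.log_le_log (by positivity)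
    have h5 := Nat.lt_succ_iff.2 (le_refl (R * U / p))
    have h6 : R * U < (R * U / p + 1) * p := by
      have := Nat.div_add_mod (R * U) p
      have h7 := Nat.mod_lt (R * U) hp
      nlinarith
    rw [div_le_iff₀ hp0]
    exact_mod_cast h6.le
  push_cast at h4 h1
  linarith

/-- the sum of `log (rq q n) / n` over `(R, R U]` -/
theorem sum_log_ge {q R U : ℕ} (hq : 1 ≤ q) (hU : 1 ≤ U) :
    (Real.log U - 1) * ∑ p ∈ q.primeFactors.filter (fun p => p ≤ R), Real.log p / p ≤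
      ∑ n ∈ Ioc R (R * U), (n : ℝ)⁻¹ * Real.log (rq q n) := by
  classical
  have h1 : ∀ n ∈ Ioc R (R * U), (n : ℝ)⁻¹ * Real.log (rq q n) =
      ∑ p ∈ q.primeFactors, if p ∣ n then Real.log p * (n : ℝ)⁻¹ else 0 := by
    intro n hn
    have hn0 : n ≠ 0 := by rw [mem_Ioc] at hn; omega
    rw [log_rq, mul_sum, ← sum_filter]
    have : n.primeFactors.filter (fun p => p ∣ q) = q.primeFactors.filter (fun p => p ∣ n) := by
      ext p
      simp only [mem_filter, Nat.mem_primeFactors]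
      constructor
      · rintro ⟨⟨a, b, c⟩, d⟩; exact ⟨⟨a, d, by omega⟩, b⟩
      · rintro ⟨⟨a, b, c⟩, d⟩; exact ⟨⟨a, d, hn0⟩, b⟩
    rw [this]
    exact sum_congr rfl fun _ _ => mul_comm _ _
  rw [sum_congr rfl h1, sum_comm, mul_sum]
  have h2 : ∀ p ∈ q.primeFactors.filter (fun p => p ≤ R),
      (Real.log U - 1) * (Real.log p / p) ≤
        ∑ n ∈ Ioc R (R * U), if p ∣ n then Real.log p * (n : ℝ)⁻¹ else 0 := by
    intro p hp
    rw [mem_filter] at hp
    have hpp := Nat.prime_of_mem_primeFactors hp.1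
    have h3 := sum_T_mul_ge (R := R) (U := U) (p := p) hU hpp.one_le hp.2
    rw [← sum_filter, ← mul_sum]
    have h4 : 0 ≤ Real.log p := Real.log_nonneg (by exact_mod_cast hpp.one_le)
    calc (Real.log U - 1) * (Real.log p / p) = Real.log p * ((p : ℝ)⁻¹ * (Real.log U - 1)) := by
          rw [div_eq_mul_inv]; ring
      _ ≤ _ := mul_le_mul_of_nonneg_left h3 h4
  refine (sum_le_sum h2).trans (sum_le_sum_of_subset_of_nonneg (filter_subset _ _) ?_)
  intro p hp _
  apply sum_nonneg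
  intro n _
  split_ifs
  · have hpp := Nat.prime_of_mem_primeFactors hp
    have h4 : 0 ≤ Real.log p := Real.log_nonneg (by exact_mod_cast hpp.one_le)
    positivity
  · exact le_rfl

/-- the gain from the primes up to `R` -/
theorem gain_small (a q N : ℕ) {R U : ℕ} (hq : 1 ≤ q) (hR : 1 ≤ R) (hU : 1 ≤ U) :
    (Real.log U - 1) * ∑ p ∈ q.primeFactors.filter (fun p => p ≤ R), Real.log p / p ≤
      Real.log U * (1 + Real.log U) + (Real.log R + Real.log U) *
        (((q : ℝ) / Nat.totient q) * JJ (apSieve a q N R) R - Real.log ((R : ℝ) + 1)) := by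
  classical
  have hR0 : (0 : ℝ) < R := by exact_mod_cast hR
  have hU0 : (0 : ℝ) < U := by exact_mod_cast hU
  have hlR : 0 ≤ Real.log R := Real.log_nonneg (by exact_mod_cast hR)
  have hlU : 0 ≤ Real.log U := Real.log_nonneg (by exact_mod_cast hU)
  refine (sum_log_ge hq hU).trans ?_
  obtain ⟨S3, hS3⟩ : ∃ S3 : Finset ℕ, S3 = (Ioc R (R * U)).filter (fun m => U ≤ rq q m) :=
    ⟨_, rfl⟩
  have hex : ∑ m ∈ S3, (m : ℝ)⁻¹ ≤ ((q : ℝ) / Nat.totient q) * JJ (apSieve a q N R) R -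
        Real.log ((R : ℝ) + 1) := by
    have h1 := ker_sum_le a q N R hq (Icc 1 R ∪ S3) (by
      intro n hn
      rw [mem_union, mem_Icc, hS3, mem_filter, mem_Ioc] at hn
      rcases hn with h | h
      · exact ⟨by omega, (Nat.le_of_dvd (by omega) (ker_dvd q n)).trans h.2⟩
      · have hn0 : n ≠ 0 := by omega
        refine ⟨hn0, ?_⟩
        have h2 := ker_mul_rq (q := q) hn0
        by_contra hcon
        push Not at hcon
        have h3 : R * U < ker q n * rq q n :=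
          lt_of_lt_of_le (Nat.mul_lt_mul_of_pos_right hcon hU) (Nat.mul_le_mul_left _ h.2)
        omega)
    rw [sum_union] at h1
    · have h3 := log_succ_le R
      linarith
    · rw [disjoint_left]
      intro n h1 h2
      rw [mem_Icc] at h1
      rw [hS3, mem_filter, mem_Ioc] at h2
      omega
  have hup : ∀ n ∈ Ioc R (R * U), (n : ℝ)⁻¹ * Real.log (rq q n) ≤
      Real.log U * (n : ℝ)⁻¹ +
        (Real.log R + Real.log U) * (if U ≤ rq q n then (n : ℝ)⁻¹ else 0) := by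
    intro n hn
    rw [mem_Ioc] at hn
    have hn0 : n ≠ 0 := by omega
    have hni : (0 : ℝ) ≤ (n : ℝ)⁻¹ := by positivity
    split_ifs with h
    · have h1 : Real.log (rq q n) ≤ Real.log R + Real.log U := by
        rw [← Real.log_mul hR0.ne' hU0.ne']
        apply Real.log_le_log (by exact_mod_cast rq_pos q n)
        exact_mod_cast (rq_le hn0).trans hn.2
      have h2 := mul_le_mul_of_nonneg_left h1 hni
      have h3 : 0 ≤ Real.log U * (n : ℝ)⁻¹ := by positivity
      linarith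
    · have h1 : Real.log (rq q n) ≤ Real.log U := by
        apply Real.log_le_log (by exact_mod_cast rq_pos q n)
        exact_mod_cast (by omega : rq q n ≤ U)
      have h2 := mul_le_mul_of_nonneg_left h1 hni
      linarith
  refine (sum_le_sum hup).trans ?_
  rw [sum_add_distrib, ← mul_sum, ← mul_sum, ← sum_filter, ← hS3]
  have h1 := sum_T_le hR hU
  have h2 := mul_le_mul_of_nonneg_left h1 hlU
  have h3 := mul_le_mul_of_nonneg_left hex (show 0 ≤ Real.log R + Real.log U by linarith)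
  linarith

/-- the gain from the primes above `R` -/
theorem gain_large (a q N : ℕ) {R : ℕ} (hq : 1 ≤ q) :
    (1 + ∑ p ∈ q.primeFactors.filter (fun p => R < p), (p : ℝ)⁻¹) * Real.log ((R : ℝ) + 1) ≤
      ((q : ℝ) / Nat.totient q) * JJ (apSieve a q N R) R := by
  classical
  obtain ⟨P, hP⟩ : ∃ P : Finset ℕ, P = q.primeFactors.filter (fun p => R < p) := ⟨_, rfl⟩
  rw [← hP]
  have hPm : ∀ p ∈ P, p.Prime ∧ p ∣ q ∧ R < p := by
    intro p hp
    rw [hP, mem_filter, Nat.mem_primeFactors] at hp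
    exact ⟨hp.1.1, hp.1.2.1, hp.2⟩
  obtain ⟨S, hS⟩ : ∃ S : Finset ℕ, S = (Icc 1 R ×ˢ P).image (fun z => z.1 * z.2) := ⟨_, rfl⟩
  have h1 := ker_sum_le a q N R hq (Icc 1 R ∪ S) (by
    intro n hn
    rw [mem_union, mem_Icc, hS, mem_image] at hn
    rcases hn with h | ⟨z, hz, rfl⟩
    · exact ⟨by omega, (Nat.le_of_dvd (by omega) (ker_dvd q n)).trans h.2⟩
    · rw [mem_product, mem_Icc] at hz
      obtain ⟨hp, hpq, hRp⟩ := hPm z.2 hz.2
      have hz0 : z.1 * z.2 ≠ 0 := Nat.mul_ne_zero (by omega) hp.ne_zero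
      refine ⟨hz0, ?_⟩
      have h2 := ker_mul_rq (q := q) hz0
      have h3 : z.2 ≤ rq q (z.1 * z.2) := by
        apply Nat.le_of_dvd (rq_pos _ _)
        unfold rq
        apply dvd_prod_of_mem (fun p : ℕ => p)
        rw [mem_filter, Nat.mem_primeFactors]
        exact ⟨⟨hp, dvd_mul_left _ _, hz0⟩, hpq⟩
      by_contra hcon
      push Not at hcon
      have h4 : R * z.2 < ker q (z.1 * z.2) * rq q (z.1 * z.2) :=
        lt_of_lt_of_le (Nat.mul_lt_mul_of_pos_right hcon hp.pos) (Nat.mul_le_mul_left _ h3)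
      have h5 : z.1 * z.2 ≤ R * z.2 := Nat.mul_le_mul_right _ hz.1.2
      omega)
  have hinj : Set.InjOn (fun z : ℕ × ℕ => z.1 * z.2) (Icc 1 R ×ˢ P : Finset (ℕ × ℕ)) := by
    intro z hz w hw hzw
    rw [mem_coe, mem_product, mem_Icc] at hz hw
    simp only at hzw
    obtain ⟨hp, -, hRp⟩ := hPm z.2 hz.2
    obtain ⟨hp', -, hRp'⟩ := hPm w.2 hw.2
    have h2 : z.2 ∣ w.1 * w.2 := hzw ▸ dvd_mul_left _ _
    have h3 : z.2 = w.2 := by
      rcases hp.dvd_mul.1 h2 with h | h
      · exact absurd (Nat.le_of_dvd (by omega) h) (by omega)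
      · exact (Nat.prime_dvd_prime_iff_eq hp hp').1 h
    rw [h3] at hzw
    exact Prod.ext (Nat.eq_of_mul_eq_mul_right hp'.pos hzw) h3
  rw [sum_union] at h1
  · rw [hS, sum_image hinj] at h1
    have h2 : ∑ z ∈ Icc 1 R ×ˢ P, ((z.1 * z.2 : ℕ) : ℝ)⁻¹ =
        (∑ m ∈ Icc 1 R, (m : ℝ)⁻¹) * ∑ p ∈ P, (p : ℝ)⁻¹ := by
      rw [sum_mul_sum, ← sum_product']
      apply sum_congr rfl
      intro z _
      push_cast
      rw [mul_inv]
    rw [h2] at h1
    have h3 := log_succ_le R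
    have h4 : 0 ≤ ∑ p ∈ P, (p : ℝ)⁻¹ := sum_nonneg fun p _ => by positivity
    have h5 := mul_le_mul_of_nonneg_right h3 (show 0 ≤ 1 + ∑ p ∈ P, (p : ℝ)⁻¹ by linarith)
    linarith
  · rw [disjoint_left]
    intro n h1 h2
    rw [mem_Icc] at h1
    rw [hS, mem_image] at h2
    obtain ⟨z, hz, rfl⟩ := h2
    rw [mem_product, mem_Icc] at hz
    obtain ⟨hp, -, hRp⟩ := hPm z.2 hz.2
    have : z.2 ≤ z.1 * z.2 := Nat.le_mul_of_pos_left _ (by omega)
    omega

end Pool.Agent.Helper82.BTM
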