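import Pool.Agent.Helper82.BTM.A

/-!
# The sieve bound for progressions whose modulus has many prime factors
-/

set_option autoImplicit false

namespace Pool.Agent.Helper82.BTM

open Finset BoundingSieve
open Pool.Agent.Erdos456.SieveAux (JJ JJ_pos)
open Pool.Agent.Helper923.PPS
open Pool.Agent.E8helper28.BT

/-- the weight of the primes dividing `k`, relative to `z` -/
noncomputable def wt (k : ℕ) (z : ℝ) : ℝ :=
  ∑ p ∈ k.primeFactors, min (Real.log p / Real.log z) 1 / p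

theorem wt_le (k R : ℕ) {z : ℝ} (hz : 1 < z) :
    wt k z ≤ (∑ p ∈ k.primeFactors.filter (fun p => p ≤ R), Real.log p / p) / Real.log z +
      ∑ p ∈ k.primeFactors.filter (fun p => R < p), (p : ℝ)⁻¹ := by
  unfold wt
  have hlz : 0 < Real.log z := Real.log_pos hz
  rw [← sum_filter_add_sum_filter_not k.primeFactors (fun p => p ≤ R)]
  have h0 : k.primeFactors.filter (fun p => ¬ p ≤ R) = k.primeFactors.filter (fun p => R < p) :=
    filter_congr fun _ _ => not_le
  rw [h0, sum_div]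
  refine add_le_add (sum_le_sum fun p _ => ?_) (sum_le_sum fun p _ => ?_)
  · calc min (Real.log p / Real.log z) 1 / p ≤ (Real.log p / Real.log z) / p := by
          gcongr; exact min_le_left _ _
      _ = Real.log p / p / Real.log z := by rw [div_right_comm]
  · calc min (Real.log p / Real.log z) 1 / p ≤ 1 / p := by
          gcongr; exact min_le_right _ _
      _ = (p : ℝ)⁻¹ := one_div _

/-- the gain -/
theorem gain {c : ℝ} (hc : 0 < c) (hc1 : c ≤ 1) {a q N R : ℕ} (hq : 1 ≤ q) (hR : 1 ≤ R)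
    (hL : 1000 / c ^ 2 ≤ Real.log R)
    (h : c * Real.log R ≤ ∑ p ∈ q.primeFactors.filter (fun p => p ≤ R), Real.log p / p ∨
      c / 2 ≤ ∑ p ∈ q.primeFactors.filter (fun p => R < p), (p : ℝ)⁻¹) :
    (1 + c ^ 2 / 8) * Real.log R ≤ ((q : ℝ) / Nat.totient q) * JJ (apSieve a q N R) R := by
  obtain ⟨J, hJ⟩ : ∃ J : ℝ, J = ((q : ℝ) / Nat.totient q) * JJ (apSieve a q N R) R := ⟨_, rfl⟩
  obtain ⟨L, hLL⟩ : ∃ L : ℝ, L = Real.log R := ⟨_, rfl⟩
  have hR0 : (0 : ℝ) < R := by exact_mod_cast hR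
  have hlog : L ≤ Real.log ((R : ℝ) + 1) := by
    rw [hLL]; exact Real.log_le_log hR0 (by linarith)
  rw [← hLL] at hL
  have hc2 : 0 < c ^ 2 := by positivity
  have hL' : 1000 ≤ c ^ 2 * L := by
    rw [div_le_iff₀ hc2] at hL; linarith
  have hc21 : c ^ 2 ≤ 1 := by nlinarith
  have hL0 : 0 < L := by
    by_contra hcon
    push Not at hcon
    nlinarith
  have hL1 : 1000 ≤ L := by nlinarith
  rw [← hJ, ← hLL]
  rcases h with h | h
  · obtain ⟨U, hU⟩ : ∃ U : ℕ, U = ⌈(R : ℝ) ^ (c / 2)⌉₊ := ⟨_, rfl⟩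
    have hR1 : (1 : ℝ) ≤ R := by exact_mod_cast hR
    have hx1 : 1 ≤ (R : ℝ) ^ (c / 2) := Real.one_le_rpow hR1 (by positivity)
    have hU1 : 1 ≤ U := by
      rw [hU]; exact Nat.one_le_ceil_iff.2 (by linarith)
    have hUlo : (R : ℝ) ^ (c / 2) ≤ U := by rw [hU]; exact Nat.le_ceil _
    have hUhi : (U : ℝ) ≤ 2 * (R : ℝ) ^ (c / 2) := by
      have := Nat.ceil_lt_add_one (show 0 ≤ (R : ℝ) ^ (c / 2) by linarith)
      rw [hU]; linarith
    have hlx : Real.log ((R : ℝ) ^ (c / 2)) = c / 2 * L := by rw [Real.log_rpow hR0, hLL]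
    obtain ⟨u, hu⟩ : ∃ u : ℝ, u = Real.log U := ⟨_, rfl⟩
    have hu1 : c / 2 * L ≤ u := by
      rw [hu, ← hlx]; exact Real.log_le_log (by linarith) hUlo
    have hu2 : u ≤ c / 2 * L + 1 := by
      have h1 : u ≤ Real.log (2 * (R : ℝ) ^ (c / 2)) := by
        rw [hu]; exact Real.log_le_log (by positivity) hUhi
      rw [Real.log_mul (by norm_num) (by linarith), hlx] at h1
      have h2 := Real.log_two_lt_d9
      linarith
    have hg := gain_small a q N hq hR hU1
    rw [← hJ, ← hLL, ← hu] at hg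
    have hcL : 1000 ≤ c * L := by nlinarith
    have hu3 : 1 ≤ u := by linarith
    have h2 : (u - 1) * (c * L) ≤ u * (1 + u) + (L + u) * (J - Real.log ((R : ℝ) + 1)) := by
      rw [← hLL] at h
      exact (mul_le_mul_of_nonneg_left h (by linarith)).trans hg
    by_contra hcon
    push Not at hcon
    have h3 : J - Real.log ((R : ℝ) + 1) ≤ c ^ 2 / 8 * L := by nlinarith
    have h4 : (L + u) * (J - Real.log ((R : ℝ) + 1)) ≤ (L + u) * (c ^ 2 / 8 * L) :=
      mul_le_mul_of_nonneg_left h3 (by linarith)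
    have h5 : L + u ≤ 13 / 8 * L := by nlinarith
    have h6 : (L + u) * (c ^ 2 / 8 * L) ≤ (13 / 8 * L) * (c ^ 2 / 8 * L) :=
      mul_le_mul_of_nonneg_right h5 (by positivity)
    have h7 : (c * L / 2) ^ 2 - 1 ≤ u * (c * L - u) := by
      nlinarith
    have h8 : (1000 : ℝ) * L ≤ c ^ 2 * L * L := mul_le_mul_of_nonneg_right hL' hL0.le
    have h9 : c * L ≤ L := by nlinarith
    have e1 : (13 / 8 * L) * (c ^ 2 / 8 * L) = 13 / 64 * (c ^ 2 * L * L) := by ring
    have e2 : (c * L / 2) ^ 2 = c ^ 2 * L * L / 4 := by ring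
    have e3 : (u - 1) * (c * L) - u * (1 + u) = u * (c * L - u) - c * L - u := by ring
    rw [e1] at h6
    rw [e2] at h7
    linarith
  · have hg := gain_large (R := R) a q N hq
    rw [← hJ] at hg
    have h1 : (1 + c / 2) * L ≤
        (1 + ∑ p ∈ q.primeFactors.filter (fun p => R < p), (p : ℝ)⁻¹) *
          Real.log ((R : ℝ) + 1) :=
      mul_le_mul (by linarith) hlog hL0.le (by linarith)
    have h2 : (1 + c ^ 2 / 8) * L ≤ (1 + c / 2) * L := by
      apply mul_le_mul_of_nonneg_right _ hL0.le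
      nlinarith
    linarith

/-- the sieve bound with `J` -/
theorem core2 (a q N R : ℕ) (hq : 1 ≤ q) (hR : 1 ≤ R) :
    (((range N).filter (fun t => (a + t * q).Prime)).card : ℝ) ≤
      N / JJ (apSieve a q N R) R +
        1 * ((R : ℝ) * (1 + Real.log R / Real.log 2)) ^ 2 + (R + 1) := by
  classical
  set s := apSieve a q N R with hs
  have hlogR : 0 ≤ Real.log R := Real.log_nonneg (by exact_mod_cast hR)
  have hl2 : 0 < Real.log 2 := Real.log_pos (by norm_num)
  have hsel := Pool.Agent.Erdos456.SieveAux.selberg_bound (s := s) R hR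
    (A := 1 + Real.log R / Real.log 2) (B := 1) (by positivity) zero_le_one
    (by
      intro d hd hdR
      have hd' := Nat.dvd_of_mem_divisors hd
      have hd0 : d ≠ 0 := (Nat.pos_of_mem_divisors hd).ne'
      rw [BoundingSieve.selbergTerms_apply]
      change ((d : ℝ)⁻¹ * ∏ p ∈ d.primeFactors, (1 - (p : ℝ)⁻¹)⁻¹) / (d : ℝ)⁻¹ ≤ _
      have hdr : (d : ℝ) ≠ 0 := by exact_mod_cast hd0
      rw [mul_div_assoc, mul_comm, div_mul_cancel₀ _ (inv_ne_zero hdr)]
      refine (Pool.Agent.H617R3.BT.prod_le_card _ fun p hp =>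
        (Nat.prime_of_mem_primeFactors hp).two_le).trans ?_
      have h1 := Pool.Agent.H617R3.BT.card_primeFactors_le hd0
      have h2 : Real.log d ≤ Real.log R := by
        apply Real.log_le_log (by exact_mod_cast Nat.pos_of_ne_zero hd0)
        exact_mod_cast hdR
      have h3 : Real.log d / Real.log 2 ≤ Real.log R / Real.log 2 := by gcongr
      linarith)
    (by
      intro d hd _
      exact apSieve_rem hq (Nat.dvd_of_mem_divisors hd))
  have hcard := sifted_ge (a := a) (q := q) (N := N) (R := R) hq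
  have hmass : s.totalMass = (N : ℝ) := rfl
  rw [hmass] at hsel
  linarith

theorem coef {η e : ℝ} (h0 : 0 < η) (h1 : η ≤ 1 / 8) (he : e = η / 16) :
    1 + η / 10 ≤ (2 - (4 / 3 + 1 / 32) * η) * (1 + η) * (1 / 2 - e) := by
  subst he
  nlinarith [mul_pos h0 h0, mul_pos (mul_pos h0 h0) h0]

/-- **The bound for progressions of `N` terms.** -/
theorem main_bound {c : ℝ} (hc : 0 < c) (hc1 : c ≤ 1) : ∃ N₀ : ℕ, 3 ≤ N₀ ∧
    ∀ a q N : ℕ, 1 ≤ q → N₀ ≤ N → ∀ z : ℝ, (N : ℝ) ≤ z + 1 → z ≤ N → c ≤ wt q z →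
      (((range N).filter (fun t => (a + t * q).Prime)).card : ℝ) ≤
        (2 - c ^ 2 / 6) * (((q : ℝ) / Nat.totient q) * N) / Real.log N := by
  obtain ⟨η, hη⟩ : ∃ η : ℝ, η = c ^ 2 / 8 := ⟨_, rfl⟩
  have hη0 : 0 < η := by rw [hη]; positivity
  have hη1 : η ≤ 1 / 8 := by rw [hη]; nlinarith
  obtain ⟨e, he⟩ : ∃ e : ℝ, e = η / 16 := ⟨_, rfl⟩
  have he0 : 0 < e := by rw [he]; positivity
  have he1 : e ≤ 1 / 128 := by rw [he]; linarith
  have hev : ∀ᶠ x : ℝ in Filter.atTop, 384 * Real.log x ^ 3 ≤ η * x ^ (2 * e) := by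
    have h1 := (isLittleO_log_rpow_rpow_atTop (3 : ℝ) (show 0 < 2 * e by positivity)).bound
      (show 0 < η / 384 by positivity)
    filter_upwards [h1, Filter.eventually_ge_atTop (1 : ℝ)] with x hx hx1
    have hl : 0 ≤ Real.log x := Real.log_nonneg hx1
    rw [Real.norm_of_nonneg (by positivity), Real.norm_of_nonneg (by positivity)] at hx
    have h2 : Real.log x ^ (3 : ℝ) = Real.log x ^ 3 := by
      rw [← Real.rpow_natCast]; norm_num
    rw [h2] at hx
    linarith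
  have hev3 : ∀ᶠ x : ℝ in Filter.atTop, 5000 / c ^ 2 ≤ Real.log x :=
    Real.tendsto_log_atTop.eventually_ge_atTop _
  have hev4 : ∀ᶠ x : ℝ in Filter.atTop, x ^ (1 - 2 * e) ≤ x - 1 := by
    have h1 := (tendsto_rpow_atTop (show 0 < 2 * e by positivity)).eventually_ge_atTop (2 : ℝ)
    filter_upwards [h1, Filter.eventually_ge_atTop (2 : ℝ)] with x hx hx2
    have hx0 : 0 < x := by linarith
    have h3 : x ^ (1 - 2 * e) * x ^ (2 * e) = x := by
      rw [← Real.rpow_add hx0]; norm_num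
    have h4 : 0 < x ^ (1 - 2 * e) := by positivity
    nlinarith
  have hev2 := (tendsto_natCast_atTop_atTop (R := ℝ)).eventually
    ((hev.and hev3).and hev4)
  obtain ⟨Y₁, hY₁⟩ := Filter.eventually_atTop.1 hev2
  refine ⟨max Y₁ 3, by omega, ?_⟩
  intro A q Y hq hY z hz1 hz2 hw
  have hq' : (0 : ℝ) < q := by exact_mod_cast hq
  have ht' : (0 : ℝ) < Nat.totient q := by exact_mod_cast Nat.totient_pos.2 hq
  obtain ⟨K, hK⟩ : ∃ K : ℝ, K = (q : ℝ) / Nat.totient q := ⟨_, rfl⟩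
  have hK1 : 1 ≤ K := by
    rw [hK, le_div_iff₀ ht', one_mul]
    exact_mod_cast Nat.totient_le q
  have hYY : Y₁ ≤ Y := by omega
  have hY3 : 3 ≤ Y := by omega
  obtain ⟨⟨h24, hL5⟩, hz3⟩ := hY₁ Y hYY
  obtain ⟨y, hy⟩ : ∃ y : ℝ, y = (Y : ℝ) := ⟨_, rfl⟩
  rw [← hy] at h24 hL5 hz3 hz1 hz2 ⊢
  rw [← hK]
  have hy3 : (3 : ℝ) ≤ y := by rw [hy]; exact_mod_cast hY3
  have hy0 : 0 < y := by linarith
  obtain ⟨L, hL⟩ : ∃ L : ℝ, L = Real.log y := ⟨_, rfl⟩
  rw [← hL] at h24 hL5 ⊢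
  have hc2 : 0 < c ^ 2 := by positivity
  have hL' : 5000 ≤ c ^ 2 * L := by
    rw [div_le_iff₀ hc2] at hL5; linarith
  have hL5k : 5000 ≤ L := by nlinarith [show c ^ 2 ≤ 1 by nlinarith]
  obtain ⟨x, hx⟩ : ∃ x : ℝ, x = y ^ (1 / 2 - e) := ⟨_, rfl⟩
  have hx0 : 0 < x := by rw [hx]; positivity
  have hx1 : 1 ≤ x := by
    rw [hx]; exact Real.one_le_rpow (by linarith) (by linarith)
  have hlogx : Real.log x = (1 / 2 - e) * L := by rw [hx, Real.log_rpow hy0, hL]
  obtain ⟨R, hRd⟩ : ∃ R : ℕ, R = ⌊x⌋₊ := ⟨_, rfl⟩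
  have hR : 1 ≤ R := by rw [hRd]; exact Nat.floor_pos.mpr hx1
  have hfl : (R : ℝ) ≤ x := by rw [hRd]; exact Nat.floor_le hx0.le
  have hfl2 : x < (R : ℝ) + 1 := by rw [hRd]; exact Nat.lt_floor_add_one x
  have hR1 : (1 : ℝ) ≤ (R : ℝ) := by exact_mod_cast hR
  have hlRu : Real.log R ≤ (1 / 2 - e) * L := by
    rw [← hlogx]; exact Real.log_le_log (by linarith) hfl
  have hlRl : (1 / 2 - e) * L - 1 ≤ Real.log R := by
    have h1 : Real.log x ≤ Real.log (2 * R) := Real.log_le_log hx0 (by linarith)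
    rw [Real.log_mul (by norm_num) (by linarith), hlogx] at h1
    have h2 := Real.log_two_lt_d9
    linarith
  have hlR0 : 0 ≤ Real.log R := Real.log_nonneg hR1
  -- the logarithm of z
  have hzx : x ^ 2 ≤ z := by
    have h1 : x ^ 2 = y ^ (1 - 2 * e) := by
      rw [hx, ← Real.rpow_natCast, ← Real.rpow_mul hy0.le]
      congr 1
      push_cast
      ring
    rw [h1]
    linarith
  have hz0 : 0 < z := lt_of_lt_of_le (by positivity) hzx
  have hlz : 2 * Real.log R ≤ Real.log z := by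
    have h1 : Real.log ((R : ℝ) ^ 2) ≤ Real.log z :=
      Real.log_le_log (by positivity) ((pow_le_pow_left₀ (by linarith) hfl 2).trans hzx)
    rw [Real.log_pow] at h1
    exact_mod_cast h1
  have hlRbig : 1000 / c ^ 2 ≤ Real.log R := by
    refine le_trans ?_ hlRl
    rw [div_le_iff₀ hc2]
    have h1 : ((1 / 2 - e) * L - 1) * c ^ 2 = (1 / 2 - e) * (c ^ 2 * L) - c ^ 2 := by ring
    have h2 : (49 / 100 : ℝ) * 5000 ≤ (1 / 2 - e) * (c ^ 2 * L) :=
      mul_le_mul (by linarith) hL' (by norm_num) (by linarith)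
    have h3 : c ^ 2 ≤ 1 := by nlinarith
    rw [h1]
    linarith
  have hlRpos : 0 < Real.log R := lt_of_lt_of_le (by positivity) hlRbig
  have hz1' : 1 < z := by
    by_contra hcon
    push Not at hcon
    have := Real.log_nonpos hz0.le hcon
    linarith
  have hcond : c * Real.log R ≤
        ∑ p ∈ q.primeFactors.filter (fun p => p ≤ R), Real.log p / p ∨
      c / 2 ≤ ∑ p ∈ q.primeFactors.filter (fun p => R < p), (p : ℝ)⁻¹ := by
    have h1 := hw.trans (wt_le q R hz1')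
    by_cases h2 : c / 2 ≤ ∑ p ∈ q.primeFactors.filter (fun p => R < p), (p : ℝ)⁻¹
    · exact Or.inr h2
    · left
      push Not at h2
      have h3 : c / 2 ≤ (∑ p ∈ q.primeFactors.filter (fun p => p ≤ R), Real.log p / p) /
          Real.log z := by linarith
      rw [le_div_iff₀ (by linarith)] at h3
      refine le_trans ?_ h3
      have h4 := mul_le_mul_of_nonneg_left hlz (show 0 ≤ c / 2 by linarith)
      linarith
  have hJ := gain hc hc1 (a := A) (N := Y) hq hR hlRbig hcond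
  rw [← hK, ← hη] at hJ
  have hmain := core2 A q Y R hq hR
  rw [← hy] at hmain
  have hl2 : 0.6931471803 < Real.log 2 := Real.log_two_gt_d9
  have hlR : Real.log R ≤ L / 2 := by
    have h1 : 0 ≤ e * L := mul_nonneg he0.le (by linarith)
    linarith
  have hA : 1 + Real.log R / Real.log 2 ≤ 2 * L := by
    have h1 : Real.log R / Real.log 2 ≤ L := by
      rw [div_le_iff₀ (by linarith)]
      have h2 : L * (1 / 2) ≤ L * Real.log 2 :=
        mul_le_mul_of_nonneg_left (by linarith) (by linarith)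
      linarith
    linarith
  have hA1 : 1 ≤ 1 + Real.log R / Real.log 2 := by
    have : 0 ≤ Real.log R / Real.log 2 := by positivity
    linarith
  obtain ⟨Q, hQ⟩ : ∃ Q : ℝ, Q = (R : ℝ) * (1 + Real.log R / Real.log 2) := ⟨_, rfl⟩
  rw [← hQ] at hmain
  have hQ1 : (R : ℝ) ≤ Q := by
    rw [hQ]; exact le_mul_of_one_le_right (by linarith) hA1
  have hQ2 : Q ≤ x * (2 * L) := by
    rw [hQ]; exact mul_le_mul hfl hA (by linarith) hx0.le
  have hQ0 : 1 ≤ Q := hR1.trans hQ1
  have herr : 1 * Q ^ 2 + ((R : ℝ) + 1) ≤ 3 * (x * (2 * L)) ^ 2 := by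
    have h1 : Q ^ 2 ≤ (x * (2 * L)) ^ 2 := pow_le_pow_left₀ (by linarith) hQ2 2
    have h2 : Q ≤ Q ^ 2 := by
      rw [sq]; exact le_mul_of_one_le_left (by linarith) hQ0
    linarith
  have hxx : x ^ 2 * y ^ (2 * e) = y := by
    rw [hx, ← Real.rpow_natCast, ← Real.rpow_mul hy0.le, ← Real.rpow_add hy0]
    have : (1 / 2 - e) * ((2 : ℕ) : ℝ) + 2 * e = 1 := by push_cast; ring
    rw [this, Real.rpow_one]
  have herr2 : 3 * (x * (2 * L)) ^ 2 ≤ η / 32 * y / L := by
    rw [le_div_iff₀ (by linarith)]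
    calc 3 * (x * (2 * L)) ^ 2 * L = x ^ 2 / 32 * (384 * L ^ 3) := by ring
      _ ≤ x ^ 2 / 32 * (η * y ^ (2 * e)) := by gcongr
      _ = η / 32 * (x ^ 2 * y ^ (2 * e)) := by ring
      _ = η / 32 * y := by rw [hxx]
  obtain ⟨J, hJd⟩ : ∃ J : ℝ, J = JJ (apSieve A q Y R) R := ⟨_, rfl⟩
  rw [← hJd] at hmain hJ
  have hK0 : 0 < K := by linarith
  have hJ0 : 0 < J := by
    have h1 : 0 < K * J := lt_of_lt_of_le (by positivity) hJ
    exact (mul_pos_iff_of_pos_left hK0).1 h1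
  have hm1 : y / J ≤ (2 - (4 / 3 + 1 / 32) * η) * (K * y) / L := by
    rw [div_le_div_iff₀ hJ0 (by linarith)]
    have h2 := coef hη0 hη1 he
    have h3 : L ≤ (2 - (4 / 3 + 1 / 32) * η) * (K * J) := by
      have h4 : 0 ≤ 2 - (4 / 3 + 1 / 32) * η := by linarith
      refine le_trans ?_ (mul_le_mul_of_nonneg_left
        ((mul_le_mul_of_nonneg_left hlRl (show 0 ≤ 1 + η by linarith)).trans hJ) h4)
      have h5 : (2 - (4 / 3 + 1 / 32) * η) * ((1 + η) * ((1 / 2 - e) * L - 1)) =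
          (2 - (4 / 3 + 1 / 32) * η) * (1 + η) * (1 / 2 - e) * L -
            (2 - (4 / 3 + 1 / 32) * η) * (1 + η) := by ring
      rw [h5]
      have h6 : (2 - (4 / 3 + 1 / 32) * η) * (1 + η) ≤ 3 := by
        have : (2 - (4 / 3 + 1 / 32) * η) * (1 + η) ≤ 2 * (1 + η) :=
          mul_le_mul_of_nonneg_right (by linarith) (by linarith)
        linarith
      have h7 : (1 + η / 10) * L ≤ (2 - (4 / 3 + 1 / 32) * η) * (1 + η) * (1 / 2 - e) * L :=
        mul_le_mul_of_nonneg_right h2 (by linarith)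
      have h8 : 3 ≤ η / 10 * L := by
        have h9 : η / 10 * L = c ^ 2 * L / 80 := by rw [hη]; ring
        rw [h9]
        linarith
      linarith
    calc y * L ≤ y * ((2 - (4 / 3 + 1 / 32) * η) * (K * J)) :=
          mul_le_mul_of_nonneg_left h3 hy0.le
      _ = _ := by ring
  have hKy1 : η / 32 * y / L ≤ η / 32 * (K * y) / L := by
    apply div_le_div_of_nonneg_right _ (by linarith)
    exact mul_le_mul_of_nonneg_left (le_mul_of_one_le_left hy0.le hK1) (by linarith)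
  have hfin : (2 - (4 / 3 + 1 / 32) * η) * (K * y) / L + η / 32 * (K * y) / L ≤
      (2 - c ^ 2 / 6) * (K * y) / L := by
    rw [← add_div]
    apply div_le_div_of_nonneg_right _ (by linarith)
    have h1 : 0 ≤ K * y := by positivity
    have h2 : 2 - (4 / 3 + 1 / 32) * η + η / 32 = 2 - c ^ 2 / 6 := by rw [hη]; ring
    rw [← add_mul, h2]
  linarith

end Pool.Agent.Helper82.BTM
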