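import Pool.Agent.Helper82.BTM.B
import Pool.Graph.R_pool_sql_team_seeded_b677cdb8.E8helper28.BT.Low
import Pool.Graph.R_seed8.Results.MP_26a8c3_nt.PolynomialRange

/-!
# Real form of the bound, and the reduction to moduli divisible by all small primes
-/

set_option autoImplicit false

namespace Pool.Agent.Helper82.BTM

open Finset

/-- the primes `p ≡ l (mod k)` with `x - y < p ≤ x` -/
def PS (x y : ℝ) (k : ℕ) (l : ℤ) : Set ℕ :=
  {p : ℕ | p.Prime ∧ x - y < (p : ℝ) ∧ (p : ℝ) ≤ x ∧ (p : ℤ) ≡ l [ZMOD (k : ℤ)]}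

/-- The inequality with the constant `C` for all `k`, `x`, `y` with `M k x y`, if `y / k` is
large. -/
def BT (C : ℝ) (M : ℕ → ℝ → ℝ → Prop) : Prop :=
  ∃ z₀ : ℝ, ∀ (k : ℕ) (l : ℤ) (x y : ℝ), 1 ≤ k → y ≤ x → Int.gcd l (k : ℤ) = 1 →
    z₀ ≤ y / k → M k x y →
      ((PS x y k l).ncard : ℝ) < C * y / ((Nat.totient k : ℝ) * Real.log (y / k))

theorem PS_finite (x y : ℝ) (k : ℕ) (l : ℤ) : (PS x y k l).Finite := by
  refine (Set.finite_Iic ⌊x⌋₊).subset ?_
  rintro p ⟨-, -, h, -⟩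
  exact Nat.le_floor h

/-- the set is contained in a progression of `⌊y / k⌋ + 1` terms -/
theorem PS_sub {x y : ℝ} {k : ℕ} (l : ℤ) (hk : 1 ≤ k) :
    ∃ a : ℕ, ((PS x y k l).ncard : ℝ) ≤
      (((range (⌊y / k⌋₊ + 1)).filter (fun t => (a + t * k).Prime)).card : ℝ) := by
  classical
  by_cases hemp : (PS x y k l) = ∅
  · exact ⟨0, by rw [hemp]; simp⟩
  · obtain ⟨p₀, hp₀⟩ := Set.nonempty_iff_ne_empty.2 hemp
    have hex : ∃ a : ℕ, x - y < (a : ℝ) ∧ (a : ℤ) ≡ l [ZMOD (k : ℤ)] := ⟨p₀, hp₀.2.1, hp₀.2.2.2⟩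
    obtain ⟨a, ha⟩ : ∃ a : ℕ, a = Nat.find hex := ⟨_, rfl⟩
    have ha1 := Nat.find_spec hex
    have ha2 : ∀ b : ℕ, x - y < (b : ℝ) ∧ (b : ℤ) ≡ l [ZMOD (k : ℤ)] → a ≤ b := by
      intro b hb
      rw [ha]
      exact Nat.find_min' hex hb
    rw [← ha] at ha1
    refine ⟨a, ?_⟩
    have hk0 : (0 : ℝ) < k := by exact_mod_cast hk
    have hsub : PS x y k l ⊆
        (((range (⌊y / k⌋₊ + 1)).filter (fun t => (a + t * k).Prime)).image
          (fun t => a + t * k) : Finset ℕ) := by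
      rintro p ⟨hp, h1, h2, h3⟩
      have hap := ha2 p ⟨h1, h3⟩
      have hcong : (a : ℤ) ≡ (p : ℤ) [ZMOD (k : ℤ)] := ha1.2.trans h3.symm
      have hdvd : (k : ℤ) ∣ (p : ℤ) - a := hcong.dvd
      have hdvd2 : k ∣ p - a := by
        have : ((p - a : ℕ) : ℤ) = (p : ℤ) - a := by push_cast [Nat.cast_sub hap]; ring
        rw [← this] at hdvd
        exact_mod_cast hdvd
      obtain ⟨t, ht⟩ := hdvd2
      have hpt : p = a + t * k := by
        rw [mul_comm t k, ← ht]; omega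
      rw [coe_image, Set.mem_image]
      refine ⟨t, ?_, hpt.symm⟩
      rw [mem_coe, mem_filter, mem_range]
      refine ⟨?_, hpt ▸ hp⟩
      rw [Nat.lt_succ_iff]
      apply Nat.le_floor
      rw [le_div_iff₀ hk0]
      have h4 : (p : ℝ) = a + t * k := by exact_mod_cast hpt
      linarith [ha1.1]
    have h1 := Set.ncard_le_ncard hsub (Finset.finite_toSet _)
    rw [Set.ncard_coe_finset] at h1
    exact_mod_cast h1.trans card_image_le

/-- **Part 1.** -/
theorem part1 {c : ℝ} (hc : 0 < c) (hc1 : c ≤ 1) :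
    BT (2 - c ^ 2 / 10) (fun k _ y => c ≤ wt k (y / k)) := by
  obtain ⟨N₀, hN₀, hmain⟩ := main_bound hc hc1
  have hc2 : 0 < c ^ 2 := by positivity
  refine ⟨max N₀ (max 3 (31 / c ^ 2)), ?_⟩
  intro k l x y hk hyx _ hz hw
  obtain ⟨z, hzd⟩ : ∃ z : ℝ, z = y / k := ⟨_, rfl⟩
  rw [← hzd] at hz hw ⊢
  have hz1 : (N₀ : ℝ) ≤ z := (le_max_left _ _).trans hz
  have hz2 : (3 : ℝ) ≤ z := ((le_max_left _ _).trans (le_max_right _ _)).trans hz
  have hz3 : 31 / c ^ 2 ≤ z := ((le_max_right _ _).trans (le_max_right _ _)).trans hz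
  have hk0 : (0 : ℝ) < k := by exact_mod_cast hk
  have hφ : (0 : ℝ) < Nat.totient k := by exact_mod_cast Nat.totient_pos.2 hk
  obtain ⟨a, ha⟩ := PS_sub (x := x) (y := y) l hk
  rw [← hzd] at ha
  obtain ⟨N, hN⟩ : ∃ N : ℕ, N = ⌊z⌋₊ + 1 := ⟨_, rfl⟩
  rw [← hN] at ha
  have hNz : z ≤ (N : ℝ) := by
    rw [hN]; push_cast; exact (Nat.lt_floor_add_one z).le
  have hNz2 : (N : ℝ) ≤ z + 1 := by
    rw [hN]; push_cast
    have := Nat.floor_le (show 0 ≤ z by linarith)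
    linarith
  have hNN : N₀ ≤ N := by exact_mod_cast hz1.trans hNz
  have h1 := hmain a k N hk hNN z hNz2 hNz hw
  have hlz : 0 < Real.log z := Real.log_pos (by linarith)
  have hlN : Real.log z ≤ Real.log N := Real.log_le_log (by linarith) hNz
  have hc21 : c ^ 2 ≤ 1 := by nlinarith
  obtain ⟨K, hK⟩ : ∃ K : ℝ, K = (k : ℝ) / Nat.totient k := ⟨_, rfl⟩
  have hK0 : 0 < K := by rw [hK]; positivity
  have hy : y = z * k := by rw [hzd]; field_simp
  have hfin : (2 - c ^ 2 / 10) * y / ((Nat.totient k : ℝ) * Real.log z) =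
      (2 - c ^ 2 / 10) * (K * z) / Real.log z := by
    rw [hy, hK]; field_simp
  rw [hfin]
  rw [← hK] at h1
  refine (ha.trans h1).trans_lt ?_
  have h2 : (2 - c ^ 2 / 6) * (K * N) / Real.log N ≤
      (2 - c ^ 2 / 6) * (K * (z + 1)) / Real.log z := by
    apply div_le_div₀ _ _ hlz hlN
    · have : 0 ≤ K * (z + 1) := by positivity
      exact mul_nonneg (by linarith) this
    · apply mul_le_mul_of_nonneg_left _ (by linarith)
      exact mul_le_mul_of_nonneg_left hNz2 hK0.le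
  refine h2.trans_lt ?_
  apply div_lt_div_of_pos_right _ hlz
  have h3 : (2 - c ^ 2 / 6) * (z + 1) < (2 - c ^ 2 / 10) * z := by
    rw [div_le_iff₀ hc2] at hz3
    nlinarith
  calc (2 - c ^ 2 / 6) * (K * (z + 1)) = K * ((2 - c ^ 2 / 6) * (z + 1)) := by ring
    _ < K * ((2 - c ^ 2 / 10) * z) := mul_lt_mul_of_pos_left h3 hK0
    _ = _ := by ring

/-- the weight of a modulus divisible by all primes up to `z ^ α` -/
theorem wt_ge {α : ℝ} (hα : 0 < α) (hα1 : α ≤ 1) : ∃ z₀ : ℝ, ∀ z : ℝ, z₀ ≤ z → ∀ k : ℕ, 1 ≤ k →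
    (∀ p : ℕ, p.Prime → (p : ℝ) ≤ z ^ α → p ∣ k) → α / 2 ≤ wt k z := by
  obtain ⟨C, hC⟩ := Pool.Agent.Erdos456.Mert.mertens_log
  have hev : ∀ᶠ z : ℝ in Filter.atTop, 2 * (|C| + 1) / α ≤ Real.log z :=
    Real.tendsto_log_atTop.eventually_ge_atTop _
  have hev2 : ∀ᶠ z : ℝ in Filter.atTop, 2 ≤ z ^ α :=
    (tendsto_rpow_atTop hα).eventually_ge_atTop _
  obtain ⟨z₀, hz₀⟩ := Filter.eventually_atTop.1
    ((hev.and hev2).and (Filter.eventually_ge_atTop (2 : ℝ)))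
  refine ⟨z₀, fun z hz k hk hdiv => ?_⟩
  obtain ⟨⟨h1, h2⟩, h3⟩ := hz₀ z hz
  have hz0 : 0 < z := by linarith
  have hlz : 0 < Real.log z := Real.log_pos (by linarith)
  obtain ⟨R, hR⟩ : ∃ R : ℕ, R = ⌊z ^ α⌋₊ := ⟨_, rfl⟩
  have hR2 : 2 ≤ R := by rw [hR]; exact Nat.le_floor (by exact_mod_cast h2)
  have hRle : (R : ℝ) ≤ z ^ α := by rw [hR]; exact Nat.floor_le (by positivity)
  have hRge : z ^ α < (R : ℝ) + 1 := by rw [hR]; exact Nat.lt_floor_add_one _
  have hRr : (2 : ℝ) ≤ R := by exact_mod_cast hR2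
  have hzα : z ^ α ≤ z := by
    calc z ^ α ≤ z ^ (1 : ℝ) := Real.rpow_le_rpow_of_exponent_le (by linarith) hα1
      _ = z := Real.rpow_one z
  have h4 := hC R (by omega)
  have h5 := (abs_le.1 h4).1
  have hlogR : α * Real.log z - 1 ≤ Real.log R := by
    have h6 : Real.log (z ^ α) ≤ Real.log (2 * R) := Real.log_le_log (by positivity) (by linarith)
    rw [Real.log_rpow hz0, Real.log_mul (by norm_num) (by linarith)] at h6
    have := Real.log_two_lt_d9
    linarith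
  have h6 : α * Real.log z - 1 - |C| ≤ ∑ p ∈ (Icc 1 R).filter Nat.Prime, Real.log p / p := by
    have := le_abs_self C
    linarith
  have h7 : (∑ p ∈ (Icc 1 R).filter Nat.Prime, Real.log p / p) / Real.log z ≤ wt k z := by
    unfold wt
    rw [sum_div]
    have hsub : (Icc 1 R).filter Nat.Prime ⊆ k.primeFactors := by
      intro p hp
      rw [mem_filter, mem_Icc] at hp
      rw [Nat.mem_primeFactors]
      refine ⟨hp.2, hdiv p hp.2 ?_, by omega⟩
      exact le_trans (by exact_mod_cast hp.1.2) hRle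
    have h8 : ∀ p ∈ (Icc 1 R).filter Nat.Prime,
        Real.log p / p / Real.log z = min (Real.log p / Real.log z) 1 / p := by
      intro p hp
      rw [mem_filter, mem_Icc] at hp
      have hp0 : (0 : ℝ) < p := by exact_mod_cast hp.2.pos
      have h9 : Real.log p / Real.log z ≤ 1 := by
        rw [div_le_one hlz]
        apply Real.log_le_log hp0
        exact (le_trans (by exact_mod_cast hp.1.2) hRle).trans hzα
      rw [min_eq_left h9, div_right_comm]
    rw [sum_congr rfl h8]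
    apply sum_le_sum_of_subset_of_nonneg hsub
    intro p hp _
    have hpp := Nat.prime_of_mem_primeFactors hp
    have : 0 ≤ Real.log p := Real.log_nonneg (by exact_mod_cast hpp.one_le)
    positivity
  refine le_trans ?_ h7
  rw [le_div_iff₀ hlz]
  rw [div_le_iff₀ hα] at h1
  linarith

theorem BT_mono {C C' : ℝ} (hCC : C ≤ C') {M M' : ℕ → ℝ → ℝ → Prop} (h : BT C M)
    (hM : ∃ z₁ : ℝ, ∀ (k : ℕ) (x y : ℝ), 1 ≤ k → z₁ ≤ y / k → M' k x y → M k x y) : BT C' M' := by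
  obtain ⟨z₀, hz₀⟩ := h
  obtain ⟨z₁, hz₁⟩ := hM
  refine ⟨max (max z₀ z₁) 2, fun k l x y hk hyx hg hz hM' => ?_⟩
  have h0 : z₀ ≤ y / k := ((le_max_left _ _).trans (le_max_left _ _)).trans hz
  have h1 : z₁ ≤ y / k := ((le_max_right _ _).trans (le_max_left _ _)).trans hz
  have h2 : 2 ≤ y / k := (le_max_right _ _).trans hz
  refine (hz₀ k l x y hk hyx hg h0 (hz₁ k x y hk h1 hM')).trans_le ?_
  have hk0 : (0 : ℝ) < k := by exact_mod_cast hk
  have hφ : (0 : ℝ) < Nat.totient k := by exact_mod_cast Nat.totient_pos.2 hk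
  have hlz : 0 < Real.log (y / k) := Real.log_pos (by linarith)
  have hy : 0 ≤ y := by
    by_contra hcon
    push Not at hcon
    have := div_neg_of_neg_of_pos hcon hk0
    linarith
  gcongr

/-- **Part 2.** -/
theorem part2 {α : ℝ} (hα : 0 < α) (hα1 : α ≤ 1) :
    BT (2 - α ^ 2 / 40) (fun k _ y => ∀ p : ℕ, p.Prime → (p : ℝ) ≤ (y / k) ^ α → p ∣ k) := by
  refine BT_mono (le_of_eq (by ring)) (part1 (c := α / 2) (by positivity) (by linarith)) ?_
  obtain ⟨z₀, hz₀⟩ := wt_ge hα hα1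
  exact ⟨z₀, fun k _ y hk hz h => hz₀ (y / k) hz k hk h⟩

/-- the classes modulo `k Q` above the class of `l` modulo `k` -/
theorem lift_class (k Q : ℕ) (l : ℤ) (r : ℤ) (hkQ : Nat.Coprime k Q) :
    ∃ m : ℤ, m ≡ l [ZMOD (k : ℤ)] ∧ m ≡ r [ZMOD (Q : ℤ)] := by
  obtain ⟨a, b, hab⟩ := Nat.isCoprime_iff_coprime.2 hkQ
  refine ⟨r * (a * k) + l * (b * Q), ?_, ?_⟩
  · rw [Int.modEq_iff_dvd]
    refine ⟨(l - r) * a, ?_⟩
    linear_combination (-l) * hab
  · rw [Int.modEq_iff_dvd]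
    refine ⟨(r - l) * b, ?_⟩
    linear_combination (-r) * hab

/-- splitting into classes modulo `k Q` -/
theorem split_classes {x y : ℝ} {k Q w : ℕ} {l : ℤ} (hQ : 1 ≤ Q)
    (hkQ : Nat.Coprime k Q) (hl : Int.gcd l (k : ℤ) = 1)
    (hw : ∀ p : ℕ, p.Prime → p ∣ Q → p ≤ w) {B : ℝ}
    (hB : ∀ m : ℤ, Int.gcd m ((k * Q : ℕ) : ℤ) = 1 → ((PS x y (k * Q) m).ncard : ℝ) < B) :
    ((PS x y k l).ncard : ℝ) < w + Nat.totient Q * B := by
  classical
  have : NeZero Q := ⟨by omega⟩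
  have hch : ∀ u : (ZMod Q)ˣ, ∃ m : ℤ, m ≡ l [ZMOD (k : ℤ)] ∧
      m ≡ ((u : ZMod Q).val : ℤ) [ZMOD (Q : ℤ)] := fun u => lift_class k Q l _ hkQ
  choose m hm1 hm2 using hch
  have hgcd : ∀ u, Int.gcd (m u) ((k * Q : ℕ) : ℤ) = 1 := by
    intro u
    have h1 : IsCoprime (m u) (k : ℤ) := by
      have h2 : IsCoprime l (k : ℤ) := Int.isCoprime_iff_gcd_eq_one.2 hl
      obtain ⟨t, ht⟩ := (hm1 u).dvd
      have h3 : m u = l + (k : ℤ) * (-t) := by linear_combination -ht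
      rw [h3]
      exact h2.add_mul_left_left _
    have h2 : IsCoprime (m u) (Q : ℤ) := by
      have h3 : Nat.Coprime (u : ZMod Q).val Q := ZMod.val_coe_unit_coprime u
      have h4 : IsCoprime (((u : ZMod Q).val : ℕ) : ℤ) (Q : ℤ) := Nat.isCoprime_iff_coprime.2 h3
      obtain ⟨t, ht⟩ := (hm2 u).dvd
      have h5 : m u = ((u : ZMod Q).val : ℤ) + (Q : ℤ) * (-t) := by linear_combination -ht
      rw [h5]
      exact h4.add_mul_left_left _
    rw [← Int.isCoprime_iff_gcd_eq_one]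
    push_cast
    exact h1.mul_right h2
  obtain ⟨F, hF⟩ : ∃ F : Finset ℕ, F = (PS_finite x y k l).toFinset := ⟨_, rfl⟩
  have hFc : (PS x y k l).ncard = F.card := by
    rw [hF]; exact Set.ncard_eq_toFinset_card _ _
  have hsub : F ⊆ Icc 1 w ∪ univ.biUnion
      (fun u : (ZMod Q)ˣ => (PS_finite x y (k * Q) (m u)).toFinset) := by
    intro p hp
    rw [hF, Set.Finite.mem_toFinset] at hp
    obtain ⟨hp1, hp2, hp3, hp4⟩ := hp
    rw [mem_union]
    by_cases hpQ : p ∣ Q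
    · left
      rw [mem_Icc]
      exact ⟨hp1.one_le, hw p hp1 hpQ⟩
    · right
      rw [mem_biUnion]
      have hcop : Nat.Coprime p Q := (hp1.coprime_iff_not_dvd).2 hpQ
      refine ⟨ZMod.unitOfCoprime p hcop, mem_univ _, ?_⟩
      rw [Set.Finite.mem_toFinset]
      refine ⟨hp1, hp2, hp3, ?_⟩
      have h1 : (p : ℤ) ≡ m (ZMod.unitOfCoprime p hcop) [ZMOD (k : ℤ)] :=
        hp4.trans (hm1 _).symm
      have h2 : (p : ℤ) ≡ m (ZMod.unitOfCoprime p hcop) [ZMOD (Q : ℤ)] := by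
        refine Int.ModEq.trans ?_ (hm2 _).symm
        rw [ZMod.coe_unitOfCoprime, ZMod.val_natCast]
        push_cast
        exact (Int.mod_modEq _ _).symm
      have h3 := (Int.modEq_and_modEq_iff_modEq_mul (by
        rw [Int.natAbs_natCast, Int.natAbs_natCast]; exact hkQ)).1 ⟨h1, h2⟩
      push_cast
      exact h3
  have hcard := (card_le_card hsub).trans ((card_union_le _ _).trans
    (Nat.add_le_add_left card_biUnion_le _))
  rw [Nat.card_Icc, Nat.add_sub_cancel] at hcard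
  rw [hFc]
  have hne : (univ : Finset (ZMod Q)ˣ).Nonempty := univ_nonempty
  have h5 : ∑ u : (ZMod Q)ˣ, (((PS_finite x y (k * Q) (m u)).toFinset.card : ℕ) : ℝ) <
      ∑ _u : (ZMod Q)ˣ, B := by
    apply sum_lt_sum_of_nonempty hne
    intro u _
    have h6 := hB (m u) (hgcd u)
    rwa [Set.ncard_eq_toFinset_card _ (PS_finite x y (k * Q) (m u))] at h6
  rw [sum_const, card_univ, ZMod.card_units_eq_totient, nsmul_eq_mul] at h5
  have h7 : (F.card : ℝ) ≤ w + ∑ u : (ZMod Q)ˣ,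
      (((PS_finite x y (k * Q) (m u)).toFinset.card : ℕ) : ℝ) := by
    exact_mod_cast hcard
  linarith

/-- the polynomial range -/
theorem part0 {η : ℝ} (hη : 0 < η) (hη1 : η ≤ 1 / 4) :
    BT (2 - η ^ 3 / 10 ^ 7) (fun k x y => x ^ η ≤ y / k ∧ y / k ≤ x ^ (1 - η)) := by
  obtain ⟨x₀, hx₀⟩ := Pool.Agent.Results.MP_26a8c3_nt.PolynomialRange.result η hη hη1
  refine ⟨max x₀ 0, fun k l x y hk hyx hg hz hM => ?_⟩
  refine hx₀ k l x y hk hyx hg ?_ hM.1 hM.2
  have hk1 : (1 : ℝ) ≤ k := by exact_mod_cast hk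
  have h1 : x₀ ≤ y / k := (le_max_left _ _).trans hz
  have h2 : 0 ≤ y / k := (le_max_right _ _).trans hz
  have h3 : 0 ≤ y := by
    have := mul_nonneg h2 (show (0 : ℝ) ≤ k by linarith)
    rwa [div_mul_cancel₀ y (by linarith)] at this
  have h4 : y / k ≤ y := div_le_self h3 hk1
  linarith

/-- the remaining range -/
def Rest (w : ℝ → ℝ) (c η : ℝ) (k : ℕ) (x y : ℝ) : Prop :=
  (∀ p : ℕ, p.Prime → (p : ℝ) ≤ w (y / k) → p ∣ k) ∧ wt k (y / k) < c ∧
    (y / k < x ^ η ∨ x ^ (1 - η) < y / k)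

/-- **Part 3.** -/
theorem part3 {C c ε η : ℝ} (hc : 0 < c) (hc1 : c ≤ 1) (hε : 0 < ε) (hε1 : ε ≤ 1 / 4)
    (hη : 0 < η) (hη1 : η ≤ 1 / 4)
    (hC : 2 - c ^ 2 / 10 ≤ C) (hC2 : 2 - η ^ 3 / 10 ^ 7 ≤ C)
    (h : BT C (Rest (fun z => ε * Real.log z) c η)) :
    BT (C / (1 - 2 * ε)) (fun _ _ _ => True) := by
  classical
  obtain ⟨z₁, hz₁⟩ := h
  obtain ⟨z₂', hz₂'⟩ := BT_mono (M' := fun k _ y => c ≤ wt k (y / k)) hC (part1 hc hc1)
    ⟨0, fun _ _ _ _ _ h => h⟩
  obtain ⟨z₃', hz₃'⟩ := BT_mono (M' := fun k x y => x ^ η ≤ y / k ∧ y / k ≤ x ^ (1 - η)) hC2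
    (part0 hη hη1) ⟨0, fun _ _ _ _ _ h => h⟩
  obtain ⟨z₂, hz₂d⟩ : ∃ z₂ : ℝ, z₂ = max z₂' z₃' := ⟨_, rfl⟩
  have hz₂ : ∀ (k : ℕ) (l : ℤ) (x y : ℝ), 1 ≤ k → y ≤ x → Int.gcd l (k : ℤ) = 1 →
      z₂ ≤ y / k → c ≤ wt k (y / k) →
      ((PS x y k l).ncard : ℝ) < C * y / ((Nat.totient k : ℝ) * Real.log (y / k)) :=
    fun k l x y a b d e f => hz₂' k l x y a b d ((hz₂d ▸ le_max_left _ _).trans e) f
  have hz₃ : ∀ (k : ℕ) (l : ℤ) (x y : ℝ), 1 ≤ k → y ≤ x → Int.gcd l (k : ℤ) = 1 →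
      z₂ ≤ y / k → x ^ η ≤ y / k ∧ y / k ≤ x ^ (1 - η) →
      ((PS x y k l).ncard : ℝ) < C * y / ((Nat.totient k : ℝ) * Real.log (y / k)) :=
    fun k l x y a b d e f => hz₃' k l x y a b d ((hz₂d ▸ le_max_right _ _).trans e) f
  have hC19 : (19 / 10 : ℝ) ≤ C := by nlinarith
  -- the threshold for the square root
  refine ⟨max 3 (max z₁ z₂ ^ 2), ?_⟩
  intro k l x y hk hyx hl hz _
  obtain ⟨z, hzd⟩ : ∃ z : ℝ, z = y / k := ⟨_, rfl⟩
  rw [← hzd] at hz ⊢
  have hz3 : (3 : ℝ) ≤ z := (le_max_left _ _).trans hz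
  have hz4 : max z₁ z₂ ^ 2 ≤ z := (le_max_right _ _).trans hz
  have hz0 : 0 < z := by linarith
  have hk0 : (0 : ℝ) < k := by exact_mod_cast hk
  have hφ : (0 : ℝ) < Nat.totient k := by exact_mod_cast Nat.totient_pos.2 hk
  obtain ⟨L, hL⟩ : ∃ L : ℝ, L = Real.log z := ⟨_, rfl⟩
  have hL1 : 1 ≤ L := by
    rw [hL, Real.le_log_iff_exp_le hz0]
    exact (Real.exp_one_lt_d9.le.trans (by norm_num)).trans hz3
  obtain ⟨w, hw⟩ : ∃ w : ℕ, w = ⌊ε * L⌋₊ := ⟨_, rfl⟩
  have hwle : (w : ℝ) ≤ ε * L := by rw [hw]; exact Nat.floor_le (by positivity)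
  obtain ⟨Q, hQd⟩ : ∃ Q : ℕ, Q = ∏ p ∈ (range (w + 1)).filter (fun p => p.Prime ∧ ¬ p ∣ k), p :=
    ⟨_, rfl⟩
  have hQpos : 0 < Q := by
    rw [hQd]; exact prod_pos fun p hp => (mem_filter.1 hp).2.1.pos
  have hQle : Q ≤ 4 ^ w := by
    refine le_trans ?_ (primorial_le_four_pow w)
    rw [hQd]
    unfold primorial
    apply Nat.le_of_dvd (prod_pos fun p hp => (mem_filter.1 hp).2.pos)
    apply prod_dvd_prod_of_subset
    intro p hp
    rw [mem_filter] at hp ⊢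
    exact ⟨hp.1, hp.2.1⟩
  have hkQ : Nat.Coprime k Q := by
    rw [hQd]
    apply Nat.Coprime.prod_right
    intro p hp
    rw [mem_filter] at hp
    exact ((hp.2.1.coprime_iff_not_dvd).2 hp.2.2).symm
  have hprime : ∀ p : ℕ, p.Prime → p ∣ Q → p ≤ w := by
    intro p hp hpQ
    rw [hQd] at hpQ
    obtain ⟨r, hr, hpr⟩ := (hp.prime.dvd_finsetProd_iff _).1 hpQ
    rw [mem_filter, mem_range] at hr
    have := (Nat.prime_dvd_prime_iff_eq hp hr.2.1).1 hpr
    omega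
  have hdiv : ∀ p : ℕ, p.Prime → p ≤ w → p ∣ k * Q := by
    intro p hp hpw
    by_cases hpk : p ∣ k
    · exact hpk.mul_right _
    · apply Dvd.dvd.mul_left
      rw [hQd]
      apply dvd_prod_of_mem (fun p : ℕ => p)
      rw [mem_filter, mem_range]
      exact ⟨by omega, hp, hpk⟩
  have hQ0 : (0 : ℝ) < Q := by exact_mod_cast hQpos
  have hQ1 : (1 : ℝ) ≤ Q := by exact_mod_cast hQpos
  have hlog4 : Real.log 4 ≤ 139 / 100 := by
    have : Real.log 4 = 2 * Real.log 2 := by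
      rw [← Real.log_rpow (by norm_num)]
      norm_num
    rw [this]
    linarith [Real.log_two_lt_d9]
  have hlogQ : Real.log Q ≤ 139 / 100 * (ε * L) := by
    have h1 : Real.log Q ≤ Real.log ((4 : ℝ) ^ w) :=
      Real.log_le_log hQ0 (by exact_mod_cast hQle)
    rw [Real.log_pow] at h1
    have h2 : (w : ℝ) * Real.log 4 ≤ (ε * L) * (139 / 100) :=
      mul_le_mul hwle hlog4 (Real.log_nonneg (by norm_num)) (by positivity)
    linarith
  -- the new ratio
  obtain ⟨z', hz'⟩ : ∃ z' : ℝ, z' = y / ((k * Q : ℕ) : ℝ) := ⟨_, rfl⟩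
  have hzz : z' = z / Q := by
    rw [hz', hzd]; push_cast; rw [div_div]
  have hz'0 : 0 < z' := by rw [hzz]; positivity
  have hz'z : z' ≤ z := by rw [hzz]; exact div_le_self hz0.le hQ1
  have hlz' : Real.log z' = L - Real.log Q := by
    rw [hzz, Real.log_div hz0.ne' hQ0.ne', hL]
  have hlz'1 : (1 - 139 / 100 * ε) * L ≤ Real.log z' := by
    rw [hlz']; linarith
  have hlz'2 : L / 2 ≤ Real.log z' := by
    refine le_trans ?_ hlz'1
    nlinarith
  have hlz'3 : Real.log z' ≤ L := by rw [hL]; exact Real.log_le_log hz'0 hz'z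
  have hz'big : max z₁ z₂ ≤ z' := by
    have h1 : z ≤ z' ^ 2 := by
      have h2 : Real.log z ≤ Real.log (z' ^ 2) := by
        rw [Real.log_pow, ← hL]; push_cast; linarith
      exact (Real.log_le_log_iff hz0 (by positivity)).1 h2
    by_contra hcon
    push Not at hcon
    have h3 : z' ^ 2 < max z₁ z₂ ^ 2 := pow_lt_pow_left₀ hcon hz'0.le (by norm_num)
    linarith
  have hall : ∀ m : ℤ, Int.gcd m ((k * Q : ℕ) : ℤ) = 1 → ((PS x y (k * Q) m).ncard : ℝ) <
      C * y / ((Nat.totient (k * Q) : ℝ) * Real.log z') := by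
    intro m hm
    have hkQ1 : 1 ≤ k * Q := Nat.mul_pos hk hQpos
    by_cases hwt : c ≤ wt (k * Q) z'
    · have := hz₂ (k * Q) m x y hkQ1 hyx hm (by
        rw [← hz']; exact (le_max_right _ _).trans hz'big) (by rw [← hz']; exact hwt)
      rwa [← hz'] at this
    · by_cases hpr : x ^ η ≤ z' ∧ z' ≤ x ^ (1 - η)
      · have := hz₃ (k * Q) m x y hkQ1 hyx hm (by
          rw [← hz']; exact (le_max_right _ _).trans hz'big) (by rw [← hz']; exact hpr)
        rwa [← hz'] at this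
      push Not at hwt
      have := hz₁ (k * Q) m x y hkQ1 hyx hm (by
        rw [← hz']; exact (le_max_left _ _).trans hz'big) (by
          unfold Rest
          rw [← hz']
          refine ⟨?_, hwt, ?_⟩
          swap
          · by_contra hcon
            push Not at hcon
            exact hpr hcon
          intro p hp hple
          apply hdiv p hp
          rw [hw]
          apply Nat.le_floor
          refine hple.trans ?_
          exact mul_le_mul_of_nonneg_left hlz'3 hε.le)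
      rwa [← hz'] at this
  have hmain := split_classes (w := w) hQpos hkQ hl hprime hall
  refine hmain.trans_le ?_
  have hφQ : (0 : ℝ) < Nat.totient Q := by exact_mod_cast Nat.totient_pos.2 hQpos
  have hlz'0 : 0 < Real.log z' := by linarith
  have h1 : (Nat.totient Q : ℝ) * (C * y / ((Nat.totient (k * Q) : ℝ) * Real.log z')) =
      C * y / ((Nat.totient k : ℝ) * Real.log z') := by
    rw [Nat.totient_mul hkQ]
    push_cast
    field_simp
  rw [h1]
  have hy : y = z * k := by rw [hzd]; field_simp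
  obtain ⟨K, hK⟩ : ∃ K : ℝ, K = (k : ℝ) / Nat.totient k := ⟨_, rfl⟩
  have hK1 : 1 ≤ K := by
    rw [hK, le_div_iff₀ hφ, one_mul]
    exact_mod_cast Nat.totient_le k
  have h2 : C * y / ((Nat.totient k : ℝ) * Real.log z') = C * (K * z) / Real.log z' := by
    rw [hy, hK]; field_simp
  have h3 : C / (1 - 2 * ε) * y / ((Nat.totient k : ℝ) * Real.log z) =
      C * (K * z) / ((1 - 2 * ε) * L) := by
    rw [hy, hK, ← hL]
    have : (1 - 2 * ε) ≠ 0 := by linarith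
    field_simp
  rw [h2, h3]
  have ha : 0 < 1 - 2 * ε := by linarith
  have hb : 0 < 1 - 139 / 100 * ε := by linarith
  have hKz : 0 ≤ C * (K * z) := by
    have : 0 ≤ K * z := by nlinarith
    exact mul_nonneg (by linarith) this
  have h4 : C * (K * z) / Real.log z' ≤ C * (K * z) / ((1 - 139 / 100 * ε) * L) :=
    div_le_div_of_nonneg_left hKz (by positivity) hlz'1
  have h5 : C * (K * z) / ((1 - 2 * ε) * L) - C * (K * z) / ((1 - 139 / 100 * ε) * L) =
      C * (K * z) / L * (61 / 100 * ε / ((1 - 2 * ε) * (1 - 139 / 100 * ε))) := by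
    have hgen : ∀ X A B : ℝ, A ≠ 0 → B ≠ 0 →
        X / (A * L) - X / (B * L) = X / L * ((B - A) / (A * B)) := by
      intro X A B hA hB
      field_simp
    rw [hgen _ _ _ ha.ne' hb.ne',
      show 1 - 139 / 100 * ε - (1 - 2 * ε) = 61 / 100 * ε by ring]
  have h6 : 61 / 100 * ε ≤ 61 / 100 * ε / ((1 - 2 * ε) * (1 - 139 / 100 * ε)) := by
    rw [le_div_iff₀ (by positivity)]
    have h7 : (1 - 2 * ε) * (1 - 139 / 100 * ε) ≤ 1 := by nlinarith
    nlinarith
  have h7 : 19 / 10 * z / L ≤ C * (K * z) / L := by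
    apply div_le_div_of_nonneg_right _ (by linarith)
    have h8 : z ≤ K * z := le_mul_of_one_le_left hz0.le hK1
    exact mul_le_mul hC19 h8 hz0.le (by linarith)
  have h8 : 19 / 10 * z / L * (61 / 100 * ε) ≤ C * (K * z) / L *
      (61 / 100 * ε / ((1 - 2 * ε) * (1 - 139 / 100 * ε))) :=
    mul_le_mul h7 h6 (by positivity) (by positivity)
  have h9 : L ^ 2 ≤ z := by
    have h10 : L / 2 + 1 ≤ Real.exp (L / 2) := Real.add_one_le_exp _
    have h11 : L ≤ Real.exp (L / 2) := by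
      have h12 := Real.add_one_le_exp (L / 2 - 1)
      have h13 : Real.exp (L / 2) = Real.exp (L / 2 - 1) * Real.exp 1 := by
        rw [← Real.exp_add]; ring_nf
      have h14 := Real.exp_one_gt_d9
      rw [h13]
      nlinarith [Real.exp_pos (L / 2 - 1)]
    have h12 : Real.exp (L / 2) ^ 2 = z := by
      rw [← Real.exp_nat_mul]
      push_cast
      rw [show (2 : ℝ) * (L / 2) = L by ring, hL, Real.exp_log hz0]
    calc L ^ 2 ≤ Real.exp (L / 2) ^ 2 := pow_le_pow_left₀ (by linarith) h11 2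
      _ = z := h12
  have h10 : ε * L ≤ 19 / 10 * z / L * (61 / 100 * ε) := by
    have h11 : 19 / 10 * z / L * (61 / 100 * ε) = (19 / 10 * (61 / 100)) * (z / L) * ε := by ring
    have h12 : L ≤ z / L := by rw [le_div_iff₀ (by linarith)]; nlinarith
    rw [h11]
    have h13 : L ≤ (19 / 10 * (61 / 100)) * (z / L) := by linarith
    have := mul_le_mul_of_nonneg_right h13 hε.le
    linarith
  linarith

/-- **Part 4.** -/
theorem part4 {w : ℝ → ℝ} (hw : w =o[Filter.atTop] Real.log) {c η : ℝ} (hc : 0 < c)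
    (hc1 : c ≤ 1) (hη : 0 < η) (hη1 : η ≤ 1 / 4) :
    (∃ δ : ℝ, 0 < δ ∧ BT (2 - δ) (fun _ _ _ => True)) ↔
      ∃ δ : ℝ, 0 < δ ∧ BT (2 - δ) (Rest w c η) := by
  constructor
  · rintro ⟨δ, hδ, h⟩
    exact ⟨δ, hδ, BT_mono le_rfl h ⟨0, fun _ _ _ _ _ _ => trivial⟩⟩
  · rintro ⟨δ, hδ, h⟩
    obtain ⟨d, hd⟩ : ∃ d : ℝ, d = min δ (min (c ^ 2 / 10) (η ^ 3 / 10 ^ 7)) := ⟨_, rfl⟩
    have hd0 : 0 < d := by rw [hd]; positivity
    have hd1 : d ≤ δ := by rw [hd]; exact min_le_left _ _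
    have hd2 : d ≤ c ^ 2 / 10 := by
      rw [hd]; exact (min_le_right _ _).trans (min_le_left _ _)
    have hd3 : d ≤ η ^ 3 / 10 ^ 7 := by
      rw [hd]; exact (min_le_right _ _).trans (min_le_right _ _)
    have hd4 : d ≤ 1 / 10 := by nlinarith
    obtain ⟨z₁, hz₁⟩ := Filter.eventually_atTop.1
      ((hw.bound (show 0 < d / 8 by positivity)).and (Filter.eventually_ge_atTop (1 : ℝ)))
    have h1 : BT (2 - d) (Rest (fun z => d / 8 * Real.log z) c η) := by
      refine BT_mono (by linarith) h ⟨z₁, ?_⟩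
      rintro k x y - hz ⟨h2, h3, h4⟩
      refine ⟨?_, h3, h4⟩
      intro p hp hpw
      apply h2 p hp
      obtain ⟨h5, h6⟩ := hz₁ _ hz
      rw [Real.norm_of_nonneg (Real.log_nonneg h6)] at h5
      exact hpw.trans ((Real.le_norm_self _).trans h5)
    have h2 := part3 hc hc1 (show 0 < d / 8 by positivity) (by linarith) hη hη1
      (by linarith) (by linarith) h1
    refine ⟨d / 4, by positivity, BT_mono ?_ h2 ⟨0, fun _ _ _ _ _ h => h⟩⟩
    rw [div_le_iff₀ (by linarith)]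
    nlinarith

end Pool.Agent.Helper82.BTM
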